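import Mathlib

namespace Pool.Agent.Results.MP_94066b_nt.Toms

/-- the set `T(a,b,c)` of integers `x` with `a x mod b ≤ x - c` -/
def T (a b c : ℕ) : Set ℤ := {x | ((a : ℤ) * x) % (b : ℤ) ≤ x - c}

/-- the set `S` (of integers) admits a Toms decomposition -/
def HasToms (S : Set ℤ) : Prop :=
  ∃ (L n : ℕ) (q m : Fin n → ℕ), 0 < L ∧ 0 < n ∧
    (∀ i, 0 < q i ∧ 0 < m i ∧ Nat.gcd (q i) (m i) = 1 ∧ Nat.gcd L (m i) = 1 ∧
      Nat.gcd L (q i) = 1) ∧
    S = (fun x : ℕ => (x : ℤ)) '' {x : ℕ | ∀ i, L * x ∈ AddSubmonoid.closure {q i, m i}}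

lemma mem_of (L q m s : ℕ) (P R k : ℤ) (h : P * m - R * q = L) (h1 : R * s ≤ k * m)
    (h2 : k * q ≤ P * s) : L * s ∈ AddSubmonoid.closure {q, m} := by
  rw [AddSubmonoid.mem_closure_pair]
  refine ⟨(k * m - R * s).toNat, (P * s - k * q).toNat, ?_⟩
  have e1 := Int.toNat_of_nonneg (sub_nonneg.2 h1)
  have e2 := Int.toNat_of_nonneg (sub_nonneg.2 h2)
  zify
  simp only [smul_eq_mul]
  push_cast
  rw [e1, e2, ← h]; ring

lemma exists_m (P q L A : ℕ) (hq : 0 < q) (h : Nat.Coprime P q) :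
    ∃ m : ℕ, A < m ∧ m ≤ A + q ∧ (q : ℤ) ∣ P * m - L := by
  obtain ⟨u, v, huv⟩ := (Nat.isCoprime_iff_coprime.2 h)
  have hq' : (0 : ℤ) < q := by exact_mod_cast hq
  set r : ℤ := (u * L - A - 1) % q with hr
  have r0 : 0 ≤ r := Int.emod_nonneg _ hq'.ne'
  have r1 : r < q := Int.emod_lt_of_pos _ hq'
  have e := Int.toNat_of_nonneg r0
  refine ⟨A + 1 + r.toNat, by omega, by omega, ?_⟩
  have hd := Int.emod_add_mul_ediv (u * L - A - 1) q
  rw [← hr] at hd
  refine ⟨-(P * ((u * L - A - 1) / q)) - v * L, ?_⟩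
  push_cast
  rw [e]
  have : r = u * L - A - 1 - q * ((u * L - A - 1) / q) := by linarith
  rw [this]
  linear_combination (L : ℤ) * huv

lemma ar0 (y j q D m L : ℤ) (hq' : q = 4 * y * (j + 1) + 1) (hD' : D = q - (j + 1))
    (hy' : 1 ≤ y) (hj' : 0 ≤ j) (hq0' : 0 < q) (hD0' : 0 < D) (hL0 : 0 ≤ L)
    (c1 : m * D ≤ L * y + q * D) (c2 : 2 * y * q ^ 3 ≤ L) :
    m * q * (2 * y - 1) ≤ 2 * y ^ 2 * L := by
  have c3 : (2 * y * D - q * (2 * y - 1) : ℤ) = 2 * y * (j + 1) + 1 := by rw [hD', hq']; ring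
  have c4 : (0 : ℤ) ≤ q * (2 * y - 1) := mul_nonneg hq0'.le (by linarith)
  have c5 := mul_le_mul_of_nonneg_right c1 c4
  have c6 : (q : ℤ) * D * (q * (2 * y - 1)) ≤ 2 * y * q ^ 3 := by
    have : (D : ℤ) * (2 * y - 1) ≤ q * (2 * y) :=
      mul_le_mul (by linarith) (by linarith) (by linarith) hq0'.le
    linarith [mul_le_mul_of_nonneg_left this (sq_nonneg (q : ℤ))]
  have c7 : (L : ℤ) ≤ L * y * (2 * y * (j + 1) + 1) := by
    have h0 : 0 ≤ y * (j + 1) := mul_nonneg (by linarith) (by linarith)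
    rw [mul_assoc]
    exact le_mul_of_one_le_right hL0 (one_le_mul_of_one_le_of_one_le hy' (by linarith))
  refine le_of_mul_le_mul_right ?_ hD0'
  rw [← c3] at c7
  linarith

lemma ar1 (y j k s : ℤ) (hy : 1 ≤ y) (hs : s ≤ 2 * y) (k1 : j * s < k * y) :
    (2 * y * j + 1) * s ≤ 2 * y ^ 2 * k := by
  have := mul_le_mul_of_nonneg_left (Int.add_one_le_iff.2 k1) (by linarith : 0 ≤ 2 * y)
  linarith

lemma ar2 (y j k s : ℤ) (hy : 1 ≤ y) (hs : s ≤ 2 * y) (k2 : k * y < (j + 1) * s) :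
    2 * y ^ 2 * k ≤ (2 * y * (j + 1) - 1) * s := by
  have := mul_le_mul_of_nonneg_left (Int.add_one_le_iff.2 k2) (by linarith : 0 ≤ 2 * y)
  linarith

lemma key (a b c x z : ℤ) (hb : 0 < b) (x0 : 0 < x) (z0 : 0 < z) (hc : 0 ≤ c)
    (hx : (a * x) % b ≤ x - c) (hz : z - c < (a * z) % b) :
    ∃ k : ℤ, a * z / b * x < k * z ∧ k * z < (a * z / b + 1) * x := by
  have e1 := Int.emod_add_mul_ediv (a * x) b
  have e2 := Int.emod_add_mul_ediv (a * z) b
  have r1 := Int.emod_nonneg (a * x) hb.ne'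
  have r2 := Int.emod_lt_of_pos (a * z) hb
  rcases le_or_gt x z with h | h
  · refine ⟨a * x / b, lt_of_mul_lt_mul_left ?_ hb.le, lt_of_mul_lt_mul_left ?_ hb.le⟩
    · have t1 := mul_le_mul_of_nonneg_right hx z0.le
      have t2 := mul_lt_mul_of_pos_right hz x0
      have t3 := mul_le_mul_of_nonneg_left h hc
      have t4 : b * (a * z / b * x) = a * z * x - (a * z) % b * x := by linear_combination x * e2
      have t5 : b * (a * x / b * z) = a * x * z - (a * x) % b * z := by linear_combination z * e1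
      rw [t4, t5]; linarith
    · have t2 := mul_lt_mul_of_pos_right r2 x0
      have t3 := mul_nonneg r1 z0.le
      have t4 : b * ((a * z / b + 1) * x) = a * z * x - (a * z) % b * x + b * x := by
        linear_combination x * e2
      have t5 : b * (a * x / b * z) = a * x * z - (a * x) % b * z := by linear_combination z * e1
      rw [t4, t5]; linarith
  · refine ⟨a * z / b * x / z + 1, Int.lt_ediv_add_one_mul_self _ z0, ?_⟩
    have := Int.ediv_mul_le (a * z / b * x) z0.ne'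
    linarith

lemma sep (y j : ℕ) (hy : 0 < y) : ∃ L0 : ℕ, ∀ L, L0 ≤ L → L.Prime → ∃ q m : ℕ,
    (0 < q ∧ 0 < m ∧ Nat.gcd q m = 1 ∧ Nat.gcd L m = 1 ∧ Nat.gcd L q = 1) ∧
    L * y ∉ AddSubmonoid.closure {q, m} ∧
    ∀ s : ℕ, (s = 0 ∨ ∃ k : ℤ, (j : ℤ) * s < k * y ∧ k * y < (j + 1) * s) →
      L * s ∈ AddSubmonoid.closure {q, m} := by
  obtain ⟨q, hq⟩ : ∃ q : ℕ, q = 4 * y * (j + 1) + 1 := ⟨_, rfl⟩
  obtain ⟨D, hD⟩ : ∃ D : ℕ, D + (j + 1) = q := ⟨q - (j + 1), by
    have : j + 1 ≤ q := by rw [hq]; nlinarith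
    omega⟩
  refine ⟨2 * y * q ^ 3 + q + 1, fun L hL hp => ?_⟩
  have hq0 : 0 < q := by omega
  have hD0 : 0 < D := by nlinarith
  have hLq : Nat.Coprime L q := Nat.coprime_of_lt_prime hq0.ne' (by omega) hp
  have hPq : Nat.Coprime (4 * (j + 1) ^ 2) q := by
    have h1 : Nat.Coprime (4 * (j + 1)) q := by
      rw [hq, show 4 * y * (j + 1) + 1 = 1 + y * (4 * (j + 1)) by ring]
      simp
    have h2 := Nat.Coprime.coprime_dvd_left (Dvd.intro_left 4 rfl) h1
    rw [show 4 * (j + 1) ^ 2 = 4 * (j + 1) * (j + 1) by ring]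
    exact Nat.Coprime.mul_left h1 h2
  obtain ⟨m, hm1, hm2, R, hR⟩ := exists_m _ q L (L * y / D) hq0 hPq
  have a1 : L * y < m * D := (Nat.div_lt_iff_lt_mul hD0).1 hm1
  have a2 : L * y / D * D ≤ L * y := Nat.div_mul_le_self _ _
  have hm0 : 0 < m := lt_of_le_of_lt (Nat.zero_le _) hm1
  have a3 : m * D ≤ L * y + q * D := by
    have := Nat.mul_le_mul_right D hm2
    linarith
  have hqm : Nat.Coprime q m := by
    have : IsCoprime (q : ℤ) ((4 * (j + 1) ^ 2 : ℕ) * m) := by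
      have h1 : IsCoprime (q : ℤ) (L : ℤ) := Nat.isCoprime_iff_coprime.2 hLq.symm
      have : (((4 * (j + 1) ^ 2 : ℕ) : ℤ) * m) = L + q * R := by linarith
      rw [this]; exact h1.add_mul_left_right R
    exact Nat.isCoprime_iff_coprime.1 this.of_mul_right_right
  push_cast at hR
  set P : ℤ := 4 * ((j : ℤ) + 1) ^ 2 with hP
  have hq' : (q : ℤ) = 4 * y * (j + 1) + 1 := by exact_mod_cast hq
  have hD' : (D : ℤ) = q - (j + 1) := by zify at hD; linarith
  have hy' : (1 : ℤ) ≤ y := by exact_mod_cast hy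
  have hj' : (0 : ℤ) ≤ j := by positivity
  have hq0' : (0 : ℤ) < q := by exact_mod_cast hq0
  have hD0' : (0 : ℤ) < D := by exact_mod_cast hD0
  have hm0' : (0 : ℤ) < m := by exact_mod_cast hm0
  have hPy : P * y = (j + 1) * q - (j + 1) := by rw [hP, hq']; ring
  have hL0 : (0 : ℤ) ≤ L := by positivity
  have b0 : (m : ℤ) * q * (2 * y - 1) ≤ 2 * y ^ 2 * L :=
    ar0 y j q D m L hq' hD' hy' hj' hq0' hD0' hL0 (by exact_mod_cast a3) (by
      have : 2 * y * q ^ 3 ≤ L := by omega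
      exact_mod_cast this)
  have yj : (0 : ℤ) ≤ y * j := by positivity
  have b1 : (m : ℤ) * q ≤ 2 * y * L := by
    refine le_of_mul_le_mul_right ?_ (by linarith : (0 : ℤ) < y)
    linarith [mul_le_mul_of_nonneg_left hy' (mul_pos hm0' hq0').le]
  have hmL : m < L := by
    have : (m : ℤ) * (2 * y) < L * (2 * y) := by
      have : (2 * y : ℤ) < q := by linarith
      linarith [mul_lt_mul_of_pos_left this hm0']
    exact_mod_cast lt_of_mul_lt_mul_right this (by linarith)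
  have F1 : (j : ℤ) * m < R * y := by
    refine lt_of_mul_lt_mul_right ?_ hq0'.le
    have c1 : (L : ℤ) * y < m * D := by exact_mod_cast a1
    have : R * y * q = m * (P * y) - L * y := by linear_combination (-(y : ℤ)) * hR
    rw [this, hPy]; rw [hD'] at c1
    linarith
  have F2 : 2 * (y : ℤ) ^ 2 * R ≤ m * (2 * y * j + 1) := by
    refine le_of_mul_le_mul_right ?_ hq0'
    have : 2 * (y : ℤ) ^ 2 * R * q = 2 * y * m * (P * y) - 2 * y ^ 2 * L := by
      linear_combination (-2 * (y : ℤ) ^ 2) * hR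
    rw [this, hPy]
    linarith [mul_pos (mul_pos hm0' (by linarith : (0 : ℤ) < y)) (by linarith : (0 : ℤ) < j + 1)]
  have F3 : (q : ℤ) * (2 * y * (j + 1) - 1) ≤ 2 * y ^ 2 * P := by
    have : 2 * (y : ℤ) ^ 2 * P = 2 * y * (P * y) := by ring
    rw [this, hPy]
    linarith
  have hR' : P * m - R * q = L := by linarith
  refine ⟨q, m, ⟨hq0, hm0, hqm, Nat.coprime_of_lt_prime hm0.ne' hmL hp, hLq⟩, ?_, ?_⟩
  · rw [AddSubmonoid.mem_closure_pair]
    rintro ⟨u, v, huv⟩
    simp only [smul_eq_mul] at huv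
    have huv' : (u : ℤ) * q + v * m = L * y := by exact_mod_cast huv
    have h1 : (q : ℤ) ∣ (P * y - v) * m := ⟨R * y + u, by linear_combination (y : ℤ) * hR' - huv'⟩
    obtain ⟨k, hk⟩ := (Nat.isCoprime_iff_coprime.2 hqm).dvd_of_dvd_mul_right h1
    have h2 : k * m = R * y + u := by
      refine mul_left_cancel₀ hq0'.ne' ?_
      linear_combination (y : ℤ) * hR' - huv' - (m : ℤ) * hk
    have u0 : (0 : ℤ) ≤ u := by positivity
    have v0 : (0 : ℤ) ≤ v := by positivity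
    have h3 : (j : ℤ) < k := lt_of_mul_lt_mul_right (by linarith : (j : ℤ) * m < k * m) hm0'.le
    have h4 : k < j + 1 := lt_of_mul_lt_mul_right (by linarith : k * q < (j + 1) * q) hq0'.le
    omega
  · rintro s (rfl | ⟨k, k1, k2⟩)
    · simp
    have s0 : (0 : ℤ) ≤ s := by positivity
    have y2 : (0 : ℤ) < 2 * y ^ 2 := by positivity
    by_cases hs : (s : ℤ) ≤ 2 * y
    · refine mem_of L q m s P R k hR' (le_of_mul_le_mul_left ?_ y2) (le_of_mul_le_mul_left ?_ y2)
      · have c1 := mul_le_mul_of_nonneg_right F2 s0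
        linarith [mul_le_mul_of_nonneg_left (ar1 y j k s hy' hs k1) hm0'.le]
      · have c1 := mul_le_mul_of_nonneg_right F3 s0
        linarith [mul_le_mul_of_nonneg_left (ar2 y j k s hy' hs k2) hq0'.le]
    · refine mem_of L q m s P R (P * s / q) hR' (le_of_mul_le_mul_right ?_ hq0')
        (Int.ediv_mul_le _ hq0'.ne')
      have c1 := Int.lt_ediv_add_one_mul_self (P * s) hq0'
      have c2 : R * s * q = m * (P * s) - L * s := by linear_combination (-(s : ℤ)) * hR'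
      rw [c2]
      linarith [mul_lt_mul_of_pos_left c1 hm0', mul_le_mul_of_nonneg_left (not_le.1 hs).le hL0]

theorem result (a b c : ℕ) (hb : b ≠ 0) : HasToms (T a b c ∪ {0}) := by
  classical
  have hb' : (0 : ℤ) < b := by exact_mod_cast Nat.pos_of_ne_zero hb
  choose L0 hL0 using fun y : Fin (b + c) => sep (y + 1) (a * (y + 1) / b) (Nat.succ_pos _)
  obtain ⟨L, hL, hp⟩ := Nat.exists_infinite_primes (Finset.univ.sup L0)
  choose q m h1 h2 h3 using fun y => hL0 y L ((Finset.le_sup (Finset.mem_univ y)).trans hL) hp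
  refine ⟨L, b + c, fun y => if (((y : ℕ) + 1 : ℕ) : ℤ) ∈ T a b c then 1 else q y,
    fun y => if (((y : ℕ) + 1 : ℕ) : ℤ) ∈ T a b c then 1 else m y, hp.pos, by omega,
    fun y => ?_, ?_⟩
  · dsimp only
    split_ifs
    · simp
    · exact h1 y
  ext x
  constructor
  · intro hx
    have x0 : 0 ≤ x := by
      rcases hx with hx | hx
      · have := Int.emod_nonneg (a * x) hb'.ne'
        have h : (a * x) % (b : ℤ) ≤ x - c := hx
        omega
      · exact (Set.mem_singleton_iff.1 hx).ge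
    lift x to ℕ using x0
    refine ⟨x, fun y => ?_, rfl⟩
    dsimp only
    split_ifs with hy
    · rw [AddSubmonoid.mem_closure_pair]; exact ⟨L * x, 0, by simp⟩
    refine h3 y x ?_
    rcases Nat.eq_zero_or_pos x with h0 | h0
    · exact Or.inl h0
    have hx' : ((a : ℤ) * x) % b ≤ x - c := by
      rcases hx with hx | hx
      · exact hx
      · have := Set.mem_singleton_iff.1 hx; omega
    have hy' : (((y : ℕ) + 1 : ℕ) : ℤ) - c < ((a : ℤ) * ((y : ℕ) + 1 : ℕ)) % b := not_le.1 hy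
    right
    have e : ((a * ((y : ℕ) + 1) / b : ℕ) : ℤ) = (a : ℤ) * ((y : ℕ) + 1 : ℕ) / b := by
      push_cast; rfl
    rw [e]
    exact key a b c x _ hb' (by exact_mod_cast h0) (by positivity) (by positivity) hx' hy'
  · rintro ⟨x, hx, rfl⟩
    by_contra hn
    simp only [Set.mem_union, Set.mem_singleton_iff, not_or] at hn
    have h : (x : ℤ) - c < ((a : ℤ) * x) % b := not_le.1 hn.1
    have := Int.emod_lt_of_pos (a * x) hb'
    have h0 : x ≠ 0 := fun h => hn.2 (by simp [h])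
    have hy := hx ⟨x - 1, by omega⟩
    have e : x - 1 + 1 = x := by omega
    have h2' := h2 ⟨x - 1, by omega⟩
    simp only [e] at hy h2'
    rw [if_neg hn.1, if_neg hn.1] at hy
    exact h2' hy

end Pool.Agent.Results.MP_94066b_nt.Toms
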